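import Mathlib

set_option autoImplicit false

/-!
# Decompositions of complete bipartite graphs into balanced trees: definitions
-/

namespace Pool.Agent.MP7c15de

open SimpleGraph

/-- `T` decomposes `H`: the edge set of `H` is partitioned into the edge sets of subgraphs of `H`,
each of them isomorphic to `T`. -/
def Decomposes {V W : Type*} (T : SimpleGraph V) (H : SimpleGraph W) : Prop :=
  ∃ P : Set H.Subgraph, (∀ S ∈ P, Nonempty (T ≃g S.coe)) ∧
    ∀ e ∈ H.edgeSet, ∃! S, S ∈ P ∧ e ∈ S.edgeSet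

/-- `T` is a tree both of whose bipartition classes (`s` and its complement) have exactly `n`
elements. -/
def IsBalancedTree (n : ℕ) (T : SimpleGraph (Fin (2 * n))) : Prop :=
  T.IsTree ∧ ∃ s : Finset (Fin (2 * n)), s.card = n ∧ ∀ x y, T.Adj x y → (x ∈ s ↔ y ∉ s)

/-- The set `S(n)` of the positive integers `k` such that every balanced tree with `2n` vertices
decomposes `K_{2n-1,k}`. -/
def SS (n : ℕ) : Set ℕ :=
  {k | 0 < k ∧ ∀ T : SimpleGraph (Fin (2 * n)), IsBalancedTree n T →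
    Decomposes T (completeBipartiteGraph (Fin (2 * n - 1)) (Fin k))}

/-- a family of copies of `T` covering every edge of `H` exactly once gives a decomposition -/
theorem decomposes_of_copies {V W ι : Type*} {T : SimpleGraph V} {H : SimpleGraph W}
    (φ : ι → Copy T H)
    (h : ∀ e ∈ H.edgeSet, ∃! i, e ∈ (φ i).toSubgraph.edgeSet) : Decomposes T H := by
  refine ⟨Set.range (fun i => (φ i).toSubgraph), ?_, ?_⟩
  · rintro _ ⟨i, rfl⟩
    exact ⟨(φ i).isoToSubgraph⟩
  · intro e he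
    obtain ⟨i, hi, hu⟩ := h e he
    refine ⟨(φ i).toSubgraph, ⟨⟨i, rfl⟩, hi⟩, ?_⟩
    rintro _ ⟨⟨j, rfl⟩, hj⟩
    have := hu j hj
    subst this
    rfl

theorem mem_copy_edgeSet {V W : Type*} {T : SimpleGraph V} {H : SimpleGraph W} (φ : Copy T H)
    (a b : W) : s(a, b) ∈ φ.toSubgraph.edgeSet ↔ ∃ x y, T.Adj x y ∧ φ x = a ∧ φ y = b := by
  rw [Subgraph.mem_edgeSet]
  simp [Subgraph.map_adj, Relation.Map]

/-- conversely a decomposition gives a family of copies -/
theorem exists_copies_of_decomposes {V W : Type*} {T : SimpleGraph V} {H : SimpleGraph W}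
    (h : Decomposes T H) : ∃ P : Set H.Subgraph, ∃ φ : P → Copy T H,
      ∀ a b, H.Adj a b → ∃! i, ∃ x y, T.Adj x y ∧ φ i x = a ∧ φ i y = b := by
  obtain ⟨P, hP, hcov⟩ := h
  have hiso : ∀ S : P, ∃ φ : Copy T H, φ.toSubgraph = S.1 := by
    intro S
    have : S.1 ∈ Set.range (Copy.toSubgraph (A := T) (B := H)) := by
      rw [Copy.range_toSubgraph]
      exact hP S.1 S.2
    exact this
  choose φ hφ using hiso
  refine ⟨P, φ, ?_⟩
  intro a b hab
  obtain ⟨S, ⟨hS, hm⟩, hu⟩ := hcov s(a, b) (by simpa using hab)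
  refine ⟨⟨S, hS⟩, ?_, ?_⟩
  · have h2 := (mem_copy_edgeSet (φ ⟨S, hS⟩) a b).mp
    rw [hφ] at h2
    exact h2 hm
  · intro j hj
    have h2 := (mem_copy_edgeSet (φ j) a b).mpr hj
    rw [hφ] at h2
    exact Subtype.ext (hu j.1 ⟨j.2, h2⟩)

end Pool.Agent.MP7c15de
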