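import Mathlib

set_option autoImplicit false

/-!
# A labelling of trees

Every tree with `N` edges and bipartition classes `side`, `¬ side` has an integer labelling of its
vertices such that the sums along the edges are pairwise distinct and lie in an interval with `N`
elements, and the labels of the vertices in `side` are pairwise distinct and also lie in an
interval with `N` elements.
-/

namespace Pool.Agent.MP7c15de

open SimpleGraph

/-- every vertex of `S` is joined to `r` by a walk inside `S` -/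
def Conn {V : Type*} (G : SimpleGraph V) (S : Finset V) (r : V) : Prop :=
  ∀ x ∈ S, ∃ p : G.Walk r x, ∀ z ∈ p.support, z ∈ S

theorem acyclic_nbr {V : Type*} {G : SimpleGraph V} (hG : G.IsAcyclic) {r c x : V}
    (hrc : G.Adj r c) (hrx : G.Adj r x) (p : G.Walk c x) (hp : r ∉ p.support) : c = x := by
  classical
  have hq : r ∉ (p.toPath : G.Walk c x).support := fun h => hp (p.support_toPath_subset_support h)
  have h1 : (Walk.cons hrc (p.toPath : G.Walk c x)).IsPath := by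
    rw [Walk.cons_isPath_iff]
    exact ⟨p.toPath.2, hq⟩
  have h2 : (Walk.cons hrx Walk.nil).IsPath := by
    rw [Walk.cons_isPath_iff]
    refine ⟨Walk.IsPath.nil, ?_⟩
    simp [hrx.ne]
  have := (hG.subsingleton_path r x).elim ⟨_, h1⟩ ⟨_, h2⟩
  have h3 := congrArg Subtype.val this
  simp only at h3
  have h4 := congrArg (fun w : G.Walk r x => w.snd) h3
  simpa using h4


theorem split {V : Type*} [DecidableEq V] {G : SimpleGraph V} (hG : G.IsAcyclic) {S : Finset V}
    {r : V} (hr : r ∈ S) (hc : Conn G S r) (hcard : 1 < S.card) :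
    ∃ (c : V) (S₁ S₂ : Finset V), G.Adj r c ∧ r ∈ S₁ ∧ c ∈ S₂ ∧ S₁ ∪ S₂ = S ∧ Disjoint S₁ S₂ ∧
      Conn G S₁ r ∧ Conn G S₂ c ∧ ∀ x ∈ S₁, ∀ y ∈ S₂, G.Adj x y → x = r ∧ y = c := by
  classical
  obtain ⟨y, hy, hyr⟩ := Finset.exists_mem_ne hcard r
  obtain ⟨p, hp⟩ := hc y hy
  cases p with
  | nil => exact absurd rfl hyr
  | @cons _ c _ h q =>
    have hcS : c ∈ S := hp c (by simp)
    set S₂ : Finset V := S.filter (fun x => ∃ p : G.Walk c x, ∀ z ∈ p.support, z ∈ S ∧ z ≠ r)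
      with hS₂
    have mem₂ : ∀ x, x ∈ S₂ ↔ ∃ p : G.Walk c x, ∀ z ∈ p.support, z ∈ S ∧ z ≠ r := by
      intro x
      simp only [hS₂, Finset.mem_filter]
      constructor
      · exact fun h => h.2
      · rintro ⟨p, hp⟩
        exact ⟨(hp x (Walk.end_mem_support p)).1, p, hp⟩
    have hr₂ : r ∉ S₂ := by
      rw [mem₂]
      rintro ⟨p, hp⟩
      exact (hp r (Walk.end_mem_support p)).2 rfl
    refine ⟨c, S \ S₂, S₂, h, ?_, ?_, ?_, ?_, ?_, ?_, ?_⟩
    · simp [hr, hr₂]
    · rw [mem₂]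
      refine ⟨Walk.nil, ?_⟩
      intro z hz
      simp only [Walk.support_nil, List.mem_singleton] at hz
      subst hz
      exact ⟨hcS, h.ne'⟩
    · exact Finset.sdiff_union_of_subset (Finset.filter_subset _ _)
    · exact Finset.sdiff_disjoint
    · intro x hx
      rw [Finset.mem_sdiff] at hx
      obtain ⟨p, hp⟩ := hc x hx.1
      have hpath : (p.toPath : G.Walk r x).IsPath := p.toPath.2
      have hsup : ∀ z ∈ (p.toPath : G.Walk r x).support, z ∈ S :=
        fun z hz => hp z (p.support_toPath_subset_support hz)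
      revert hpath hsup
      generalize (p.toPath : G.Walk r x) = w
      intro hpath hsup
      cases w with
      | nil =>
        refine ⟨Walk.nil, ?_⟩
        intro z hz
        simp only [Walk.support_nil, List.mem_singleton] at hz
        subst hz
        simp [hr, hr₂]
      | @cons _ c' _ h' q' =>
        rw [Walk.cons_isPath_iff] at hpath
        refine ⟨Walk.cons h' q', ?_⟩
        intro z hz
        rw [Walk.support_cons, List.mem_cons] at hz
        rcases hz with rfl | hz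
        · simp [hr, hr₂]
        · have hzS : z ∈ S := hsup z (by rw [Walk.support_cons]; exact List.mem_cons_of_mem _ hz)
          rw [Finset.mem_sdiff]
          refine ⟨hzS, fun hz2 => hx.2 ?_⟩
          rw [mem₂] at hz2 ⊢
          obtain ⟨p₂, hp₂⟩ := hz2
          refine ⟨p₂.append (q'.dropUntil z hz), ?_⟩
          intro z' hz'
          rw [Walk.mem_support_append_iff] at hz'
          rcases hz' with hz' | hz'
          · exact hp₂ z' hz'
          · have hz'' := q'.support_dropUntil_subset_support hz hz'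
            refine ⟨hsup z' (by rw [Walk.support_cons]; exact List.mem_cons_of_mem _ hz''), ?_⟩
            rintro rfl
            exact hpath.2 hz''
    · intro x hx
      rw [mem₂] at hx
      obtain ⟨p, hp⟩ := hx
      refine ⟨p, ?_⟩
      intro z hz
      rw [mem₂]
      refine ⟨p.takeUntil z hz, ?_⟩
      intro z' hz'
      exact hp z' (p.support_takeUntil_subset_support hz hz')
    · intro x hx y hy hxy
      rw [Finset.mem_sdiff] at hx
      have hy' := hy
      rw [mem₂] at hy'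
      obtain ⟨p, hp⟩ := hy'
      have hxr : x = r := by
        by_contra hne
        apply hx.2
        rw [mem₂]
        refine ⟨p.append (Walk.cons hxy.symm Walk.nil), ?_⟩
        intro z hz
        rw [Walk.mem_support_append_iff] at hz
        rcases hz with hz | hz
        · exact hp z hz
        · simp only [Walk.support_cons, Walk.support_nil, List.mem_cons, List.not_mem_nil,
            or_false] at hz
          rcases hz with rfl | rfl
          · exact hp _ (Walk.end_mem_support p)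
          · exact ⟨hx.1, hne⟩
      subst hxr
      refine ⟨rfl, ?_⟩
      exact (acyclic_nbr hG h hxy p (fun hmem => (hp _ hmem).2 rfl)).symm


/-- `lam` is a good labelling of the tree on `S` rooted at `r` with edge sums in `[P, P + N)`. -/
structure Good {V : Type*} (G : SimpleGraph V) (side : V → Prop) (S : Finset V) (r : V)
    (N : ℕ) (F P : ℤ) (lam : V → ℤ) : Prop where
  root : lam r = F
  range : ∀ x ∈ S, ∀ y ∈ S, G.Adj x y → P ≤ lam x + lam y ∧ lam x + lam y < P + N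
  inj : ∀ x ∈ S, ∀ y ∈ S, ∀ x' ∈ S, ∀ y' ∈ S, G.Adj x y → G.Adj x' y' → side x → side x' →
    lam x + lam y = lam x' + lam y' → x = x' ∧ y = y'
  injS : ∀ x ∈ S, ∀ x' ∈ S, side x → side x' → lam x = lam x' → x = x'
  boundS : side r → ∀ x ∈ S, side x → F ≤ lam x ∧ lam x ≤ F + N
  boundT : ¬ side r → ∀ x ∈ S, side x → P - F ≤ lam x ∧ lam x < P + N - F

theorem glue {V : Type*} [DecidableEq V] {G : SimpleGraph V} {side : V → Prop}
    (hside : ∀ x y, G.Adj x y → (side x ↔ ¬ side y))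
    {S₁ S₂ : Finset V} {r c : V} (hrc : G.Adj r c) (hr : r ∈ S₁) (hc : c ∈ S₂)
    (hdisj : Disjoint S₁ S₂) (hcross : ∀ x ∈ S₁, ∀ y ∈ S₂, G.Adj x y → x = r ∧ y = c)
    {N₁ N₂ : ℕ} {F P P₁ P₂ C : ℤ} {l₁ l₂ : V → ℤ}
    (h₁ : Good G side S₁ r N₁ F P₁ l₁) (h₂ : Good G side S₂ c N₂ (C - F) P₂ l₂)
    (hcase : (side r ∧ C = P ∧ P₁ = P + 1 ∧ P₂ = P + N₁ + 1) ∨
      (¬ side r ∧ P₁ = P ∧ C = P + N₁ ∧ P₂ = P + N₁ + 1)) :
    Good G side (S₁ ∪ S₂) r (N₁ + N₂ + 1) F P (fun x => if x ∈ S₂ then l₂ x else l₁ x) := by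
  have hn₂ : ∀ x ∈ S₁, x ∉ S₂ := fun x hx hx' => Finset.disjoint_left.mp hdisj hx hx'
  have e₁ : ∀ x ∈ S₁, (if x ∈ S₂ then l₂ x else l₁ x) = l₁ x := fun x hx => if_neg (hn₂ x hx)
  have e₂ : ∀ x ∈ S₂, (if x ∈ S₂ then l₂ x else l₁ x) = l₂ x := fun x hx => if_pos hx
  have hsr : side r ↔ ¬ side c := hside r c hrc
  have hl1 := h₁.root
  have hl2 := h₂.root
  -- classification of the edges
  have hclass : ∀ x ∈ S₁ ∪ S₂, ∀ y ∈ S₁ ∪ S₂, G.Adj x y →
      (x ∈ S₁ ∧ y ∈ S₁) ∨ (x ∈ S₂ ∧ y ∈ S₂) ∨ (x = r ∧ y = c) ∨ (x = c ∧ y = r) := by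
    intro x hx y hy hxy
    rw [Finset.mem_union] at hx hy
    rcases hx with hx | hx <;> rcases hy with hy | hy
    · exact Or.inl ⟨hx, hy⟩
    · exact Or.inr (Or.inr (Or.inl (hcross x hx y hy hxy)))
    · have := hcross y hy x hx hxy.symm
      exact Or.inr (Or.inr (Or.inr ⟨this.2, this.1⟩))
    · exact Or.inr (Or.inl ⟨hx, hy⟩)
  -- numerical facts
  have bS₁ : ∀ x ∈ S₁, side x → (side r → F ≤ l₁ x ∧ l₁ x ≤ F + N₁) ∧
      (¬ side r → P₁ - F ≤ l₁ x ∧ l₁ x < P₁ + N₁ - F) :=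
    fun x hx hs => ⟨fun h => h₁.boundS h x hx hs, fun h => h₁.boundT h x hx hs⟩
  have bS₂ : ∀ x ∈ S₂, side x → (¬ side r → C - F ≤ l₂ x ∧ l₂ x ≤ C - F + N₂) ∧
      (side r → P₂ - (C - F) ≤ l₂ x ∧ l₂ x < P₂ + N₂ - (C - F)) := by
    intro x hx hs
    refine ⟨fun h => h₂.boundS ?_ x hx hs, fun h => h₂.boundT (hsr.mp h) x hx hs⟩
    by_contra hh
    exact h (hsr.mpr hh)
  refine ⟨?_, ?_, ?_, ?_, ?_, ?_⟩
  · exact (e₁ r hr).trans hl1
  · intro x hx y hy hxy
    rcases hclass x hx y hy hxy with ⟨hx, hy⟩ | ⟨hx, hy⟩ | ⟨rfl, rfl⟩ | ⟨rfl, rfl⟩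
    · simp only [e₁ x hx, e₁ y hy]
      have := h₁.range x hx y hy hxy
      push_cast
      rcases hcase with ⟨_, h1, h2, h3⟩ | ⟨_, h1, h2, h3⟩ <;> constructor <;> linarith [this.1, this.2]
    · simp only [e₂ x hx, e₂ y hy]
      have := h₂.range x hx y hy hxy
      push_cast
      rcases hcase with ⟨_, h1, h2, h3⟩ | ⟨_, h1, h2, h3⟩ <;> constructor <;> linarith [this.1, this.2]
    · rw [e₁ x hr, e₂ y hc, hl1, hl2]
      push_cast
      rcases hcase with ⟨_, h1, h2, h3⟩ | ⟨_, h1, h2, h3⟩ <;> constructor <;> linarith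
    · rw [e₁ y hr, e₂ x hc, hl1, hl2]
      push_cast
      rcases hcase with ⟨_, h1, h2, h3⟩ | ⟨_, h1, h2, h3⟩ <;> constructor <;> linarith
  · intro x hx y hy x' hx' y' hy' hxy hxy' hs hs' heq
    have key : ∀ x ∈ S₁ ∪ S₂, ∀ y ∈ S₁ ∪ S₂, G.Adj x y →
        (x ∈ S₁ ∧ y ∈ S₁ ∧
          P₁ ≤ (if x ∈ S₂ then l₂ x else l₁ x) + (if y ∈ S₂ then l₂ y else l₁ y) ∧
          (if x ∈ S₂ then l₂ x else l₁ x) + (if y ∈ S₂ then l₂ y else l₁ y) < P₁ + N₁) ∨
        (x ∈ S₂ ∧ y ∈ S₂ ∧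
          P₂ ≤ (if x ∈ S₂ then l₂ x else l₁ x) + (if y ∈ S₂ then l₂ y else l₁ y)) ∨
        (((x = r ∧ y = c) ∨ (x = c ∧ y = r)) ∧
          (if x ∈ S₂ then l₂ x else l₁ x) + (if y ∈ S₂ then l₂ y else l₁ y) = C) := by
      intro x hx y hy hxy
      rcases hclass x hx y hy hxy with ⟨hx, hy⟩ | ⟨hx, hy⟩ | ⟨rfl, rfl⟩ | ⟨rfl, rfl⟩
      · left
        rw [e₁ x hx, e₁ y hy]
        exact ⟨hx, hy, h₁.range x hx y hy hxy⟩
      · right; left
        rw [e₂ x hx, e₂ y hy]
        exact ⟨hx, hy, (h₂.range x hx y hy hxy).1⟩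
      · right; right
        rw [e₁ x hr, e₂ y hc, hl1, hl2]
        exact ⟨Or.inl ⟨rfl, rfl⟩, by ring⟩
      · right; right
        rw [e₁ y hr, e₂ x hc, hl1, hl2]
        exact ⟨Or.inr ⟨rfl, rfl⟩, by ring⟩
    have k1 := key x hx y hy hxy
    have k2 := key x' hx' y' hy' hxy'
    beta_reduce at heq
    rcases k1 with ⟨hx, hy, ha, hb⟩ | ⟨hx, hy, ha⟩ | ⟨h, ha⟩ <;>
      rcases k2 with ⟨hx', hy', ha', hb'⟩ | ⟨hx', hy', ha'⟩ | ⟨h', ha'⟩
    · rw [e₁ x hx, e₁ y hy, e₁ x' hx', e₁ y' hy'] at heq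
      exact h₁.inj x hx y hy x' hx' y' hy' hxy hxy' hs hs' heq
    · exfalso
      rcases hcase with ⟨_, h1, h2, h3⟩ | ⟨_, h1, h2, h3⟩ <;> linarith
    · exfalso
      rcases hcase with ⟨_, h1, h2, h3⟩ | ⟨_, h1, h2, h3⟩ <;> linarith
    · exfalso
      rcases hcase with ⟨_, h1, h2, h3⟩ | ⟨_, h1, h2, h3⟩ <;> linarith
    · rw [e₂ x hx, e₂ y hy, e₂ x' hx', e₂ y' hy'] at heq
      exact h₂.inj x hx y hy x' hx' y' hy' hxy hxy' hs hs' heq
    · exfalso
      rcases hcase with ⟨_, h1, h2, h3⟩ | ⟨_, h1, h2, h3⟩ <;> linarith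
    · exfalso
      rcases hcase with ⟨_, h1, h2, h3⟩ | ⟨_, h1, h2, h3⟩ <;> linarith
    · exfalso
      rcases hcase with ⟨_, h1, h2, h3⟩ | ⟨_, h1, h2, h3⟩ <;> linarith
    · rcases h with ⟨rfl, rfl⟩ | ⟨rfl, rfl⟩ <;> rcases h' with ⟨rfl, rfl⟩ | ⟨rfl, rfl⟩
      · exact ⟨rfl, rfl⟩
      · exact absurd hs' (hsr.mp hs)
      · exact absurd hs (hsr.mp hs')
      · exact ⟨rfl, rfl⟩
  · intro x hx x' hx' hs hs' heq
    beta_reduce at heq
    rw [Finset.mem_union] at hx hx'
    rcases hx with hx | hx <;> rcases hx' with hx' | hx'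
    · rw [e₁ x hx, e₁ x' hx'] at heq
      exact h₁.injS x hx x' hx' hs hs' heq
    · exfalso
      rw [e₁ x hx, e₂ x' hx'] at heq
      have b1 := bS₁ x hx hs
      have b2 := bS₂ x' hx' hs'
      rcases hcase with ⟨h0, h1, h2, h3⟩ | ⟨h0, h1, h2, h3⟩
      · linarith [(b1.1 h0).1, (b1.1 h0).2, (b2.2 h0).1, (b2.2 h0).2]
      · linarith [(b1.2 h0).1, (b1.2 h0).2, (b2.1 h0).1, (b2.1 h0).2]
    · exfalso
      rw [e₂ x hx, e₁ x' hx'] at heq
      have b1 := bS₁ x' hx' hs'
      have b2 := bS₂ x hx hs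
      rcases hcase with ⟨h0, h1, h2, h3⟩ | ⟨h0, h1, h2, h3⟩
      · linarith [(b1.1 h0).1, (b1.1 h0).2, (b2.2 h0).1, (b2.2 h0).2]
      · linarith [(b1.2 h0).1, (b1.2 h0).2, (b2.1 h0).1, (b2.1 h0).2]
    · rw [e₂ x hx, e₂ x' hx'] at heq
      exact h₂.injS x hx x' hx' hs hs' heq
  · intro h0 x hx hs
    rcases hcase with ⟨_, h1, h2, h3⟩ | ⟨h0', h1, h2, h3⟩
    · rw [Finset.mem_union] at hx
      push_cast
      rcases hx with hx | hx
      · simp only [e₁ x hx]
        have b1 := (bS₁ x hx hs).1 h0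
        constructor <;> linarith [b1.1, b1.2]
      · simp only [e₂ x hx]
        have b2 := (bS₂ x hx hs).2 h0
        constructor <;> linarith [b2.1, b2.2]
    · exact absurd h0 h0'
  · intro h0 x hx hs
    rcases hcase with ⟨h0', h1, h2, h3⟩ | ⟨_, h1, h2, h3⟩
    · exact absurd h0' h0
    · rw [Finset.mem_union] at hx
      push_cast
      rcases hx with hx | hx
      · simp only [e₁ x hx]
        have b1 := (bS₁ x hx hs).2 h0
        constructor <;> linarith [b1.1, b1.2]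
      · simp only [e₂ x hx]
        have b2 := (bS₂ x hx hs).1 h0
        constructor <;> linarith [b2.1, b2.2]

theorem exists_good {V : Type*} {G : SimpleGraph V} (hG : G.IsAcyclic) {side : V → Prop}
    (hside : ∀ x y, G.Adj x y → (side x ↔ ¬ side y)) :
    ∀ (N : ℕ) (S : Finset V) (r : V) (F P : ℤ), S.card = N + 1 → r ∈ S → Conn G S r →
      ∃ lam : V → ℤ, Good G side S r N F P lam := by
  classical
  intro N
  induction N using Nat.strong_induction_on with
  | _ N ih =>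
    intro S r F P hcard hr hconn
    rcases Nat.eq_zero_or_pos N with rfl | hN
    · obtain ⟨a, ha⟩ := Finset.card_eq_one.mp hcard
      have har : a = r := by
        rw [ha, Finset.mem_singleton] at hr
        exact hr.symm
      subst har
      subst ha
      refine ⟨fun _ => F, ⟨rfl, ?_, ?_, ?_, ?_, ?_⟩⟩
      · intro x hx y hy hxy
        rw [Finset.mem_singleton] at hx hy
        subst hx; subst hy
        exact absurd rfl hxy.ne
      · intro x hx y hy x' _ y' _ hxy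
        rw [Finset.mem_singleton] at hx hy
        subst hx; subst hy
        exact absurd rfl hxy.ne
      · intro x hx x' hx' _ _ _
        rw [Finset.mem_singleton] at hx hx'
        rw [hx, hx']
      · intro _ x _ _
        simp
      · intro h x hx hs
        rw [Finset.mem_singleton] at hx
        subst hx
        exact absurd hs h
    · obtain ⟨c, S₁, S₂, hrc, hr₁, hc₂, hunion, hdisj, hconn₁, hconn₂, hcross⟩ :=
        split hG hr hconn (by omega)
      have hcu : S₁.card + S₂.card = N + 1 := by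
        rw [← Finset.card_union_of_disjoint hdisj, hunion, hcard]
      have h1pos : 0 < S₁.card := Finset.card_pos.mpr ⟨r, hr₁⟩
      have h2pos : 0 < S₂.card := Finset.card_pos.mpr ⟨c, hc₂⟩
      obtain ⟨N₁, hN₁⟩ : ∃ N₁, S₁.card = N₁ + 1 := ⟨S₁.card - 1, by omega⟩
      obtain ⟨N₂, hN₂⟩ : ∃ N₂, S₂.card = N₂ + 1 := ⟨S₂.card - 1, by omega⟩
      have hNN : N = N₁ + N₂ + 1 := by omega
      subst hNN
      subst hunion
      by_cases hs : side r
      · obtain ⟨l₁, hl₁⟩ := ih N₁ (by omega) S₁ r F (P + 1) hN₁ hr₁ hconn₁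
        obtain ⟨l₂, hl₂⟩ := ih N₂ (by omega) S₂ c (P - F) (P + N₁ + 1) hN₂ hc₂ hconn₂
        exact ⟨_, glue hside hrc hr₁ hc₂ hdisj hcross hl₁ hl₂
          (Or.inl ⟨hs, rfl, rfl, rfl⟩)⟩
      · obtain ⟨l₁, hl₁⟩ := ih N₁ (by omega) S₁ r F P hN₁ hr₁ hconn₁
        obtain ⟨l₂, hl₂⟩ := ih N₂ (by omega) S₂ c (P + N₁ - F) (P + N₁ + 1) hN₂ hc₂ hconn₂
        exact ⟨_, glue hside hrc hr₁ hc₂ hdisj hcross hl₁ hl₂
          (Or.inr ⟨hs, rfl, rfl, rfl⟩)⟩

/-- Labelling of a tree with `m = |V| - 1 ≥ 1` edges. -/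
theorem exists_label {V : Type*} [Fintype V] {T : SimpleGraph V} (hT : T.IsTree)
    {side : V → Prop} (hside : ∀ x y, T.Adj x y → (side x ↔ ¬ side y)) {m : ℕ}
    (hm : Fintype.card V = m + 1) (hm1 : 1 ≤ m) :
    ∃ lam : V → ℤ,
      (∀ x y, T.Adj x y → 0 ≤ lam x + lam y ∧ lam x + lam y < m) ∧
      (∀ x y x' y', T.Adj x y → T.Adj x' y' → side x → side x' →
        lam x + lam y = lam x' + lam y' → x = x' ∧ y = y') ∧
      (∀ x x', side x → side x' → lam x = lam x' → x = x') ∧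
      (∀ x, side x → 0 ≤ lam x ∧ lam x < m) := by
  classical
  -- a vertex outside `side`
  have hr : ∃ r, ¬ side r := by
    obtain ⟨a, b, hab⟩ : ∃ a b, T.Adj a b := by
      have : 1 < Fintype.card V := by omega
      obtain ⟨a, b, hne⟩ := Fintype.exists_pair_of_one_lt_card this
      obtain ⟨w⟩ := hT.connected.preconnected a b
      cases w with
      | nil => exact absurd rfl hne
      | cons h _ => exact ⟨_, _, h⟩
    by_cases h : side a
    · exact ⟨b, (hside a b hab).mp h⟩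
    · exact ⟨a, h⟩
  obtain ⟨r, hr⟩ := hr
  have hconn : Conn T Finset.univ r := by
    intro x _
    obtain ⟨w⟩ := hT.connected.preconnected r x
    exact ⟨w, fun z _ => Finset.mem_univ z⟩
  obtain ⟨lam, h⟩ := exists_good hT.isAcyclic hside m Finset.univ r 0 0
    (by rw [Finset.card_univ, hm]) (Finset.mem_univ r) hconn
  refine ⟨lam, ?_, ?_, ?_, ?_⟩
  · intro x y hxy
    simpa using h.range x (Finset.mem_univ x) y (Finset.mem_univ y) hxy
  · intro x y x' y' hxy hxy' hs hs' heq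
    exact h.inj x (Finset.mem_univ _) y (Finset.mem_univ _) x' (Finset.mem_univ _) y'
      (Finset.mem_univ _) hxy hxy' hs hs' heq
  · intro x x' hs hs' heq
    exact h.injS x (Finset.mem_univ _) x' (Finset.mem_univ _) hs hs' heq
  · intro x hs
    simpa using h.boundT hr x (Finset.mem_univ _) hs

end Pool.Agent.MP7c15de
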