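import Mathlib
import Pool.Agent.Lib.MP_7c15de_co.OneSided.Defs
import Pool.Agent.Lib.MP_7c15de_co.OneSided.Label

set_option autoImplicit false

namespace Pool.Agent.MP7c15de

open SimpleGraph

/-- If a tree with `m ≥ 1` edges has at most `t` vertices outside `side`, it decomposes
`K_{m, t m}`. -/
theorem decomposes_of_card_le {V : Type*} [Fintype V] {T : SimpleGraph V} (hT : T.IsTree)
    {side : V → Prop} (hside : ∀ x y, T.Adj x y → (side x ↔ ¬ side y)) {m t : ℕ}
    (hm : Fintype.card V = m + 1) (hm1 : 1 ≤ m)
    (ht : Nat.card {x : V // ¬ side x} ≤ t) :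
    Decomposes T (completeBipartiteGraph (Fin m) (Fin (t * m))) := by
  classical
  obtain ⟨lam, hrange, hinj, hinjS, hboundS⟩ := exists_label hT hside hm hm1
  haveI : NeZero m := ⟨by omega⟩
  -- an edge
  obtain ⟨a₀, b₀, hab₀⟩ : ∃ a b, T.Adj a b := by
    have : 1 < Fintype.card V := by omega
    obtain ⟨a, b, hne⟩ := Fintype.exists_pair_of_one_lt_card this
    obtain ⟨w⟩ := hT.connected.preconnected a b
    cases w with
    | nil => exact absurd rfl hne
    | cons h _ => exact ⟨_, _, h⟩
  have hns : ∃ w, ¬ side w := by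
    by_cases h : side a₀
    · exact ⟨b₀, (hside _ _ hab₀).mp h⟩
    · exact ⟨a₀, h⟩
  have htpos : 1 ≤ t := by
    refine le_trans ?_ ht
    haveI : Nonempty {x : V // ¬ side x} := ⟨⟨hns.choose, hns.choose_spec⟩⟩
    exact Nat.card_pos
  haveI : NeZero t := ⟨by omega⟩
  -- injective indexing of the vertices outside `side`
  obtain ⟨χ, hχ⟩ : ∃ χ : V → ZMod t, ∀ x y, ¬ side x → ¬ side y → χ x = χ y → x = y := by
    have hcard : Fintype.card {x : V // ¬ side x} ≤ Fintype.card (ZMod t) := by
      rw [ZMod.card, ← Nat.card_eq_fintype_card]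
      exact ht
    obtain ⟨f⟩ := Function.Embedding.nonempty_of_card_le hcard
    refine ⟨fun x => if h : ¬ side x then f ⟨x, h⟩ else 0, ?_⟩
    intro x y hx hy hxy
    simp only [hx, hy, not_false_eq_true, dif_pos] at hxy
    have := f.injective hxy
    simpa using this
  -- residues
  have hcast : ∀ a b : ℤ, 0 ≤ a → a < m → 0 ≤ b → b < m → ((a : ZMod m) = (b : ZMod m)) →
      a = b := by
    intro a b ha ha' hb hb' h
    rw [ZMod.intCast_eq_intCast_iff] at h
    have := Int.emod_emod_of_dvd
    rw [Int.ModEq, Int.emod_eq_of_lt ha ha', Int.emod_eq_of_lt hb hb'] at h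
    exact h
  -- every residue is a label: counting
  have hsurj : ∀ z : ZMod m, ∃ x y, T.Adj x y ∧ side x ∧ ((lam x + lam y : ℤ) : ZMod m) = z := by
    -- the edge set has `m` elements and the labels are injective
    set esum : Sym2 V → ℤ := Sym2.lift ⟨fun x y => lam x + lam y, fun x y => add_comm _ _⟩
      with hesum
    have hes : ∀ x y, esum s(x, y) = lam x + lam y := fun x y => rfl
    have horient : ∀ e : T.edgeSet, ∃ x y, e.1 = s(x, y) ∧ T.Adj x y ∧ side x := by
      rintro ⟨e, he⟩
      induction e using Sym2.ind with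
      | _ x y =>
        have hxy : T.Adj x y := by simpa using he
        by_cases h : side x
        · exact ⟨x, y, rfl, hxy, h⟩
        · refine ⟨y, x, Sym2.eq_swap, hxy.symm, ?_⟩
          by_contra h'
          exact h ((hside x y hxy).mpr h')
    have hcardE : Fintype.card T.edgeSet = m := by
      have := hT.card_edgeFinset
      rw [← SimpleGraph.edgeFinset_card]
      omega
    let g : T.edgeSet → ZMod m := fun e => ((esum e.1 : ℤ) : ZMod m)
    have hginj : Function.Injective g := by
      intro e e' hee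
      obtain ⟨x, y, h1, h2, h3⟩ := horient e
      obtain ⟨x', y', h1', h2', h3'⟩ := horient e'
      have hr := hrange x y h2
      have hr' := hrange x' y' h2'
      simp only [g, h1, h1', hes] at hee
      have := hcast _ _ hr.1 hr.2 hr'.1 hr'.2 hee
      obtain ⟨rfl, rfl⟩ := hinj x y x' y' h2 h2' h3 h3' this
      exact Subtype.ext (h1.trans h1'.symm)
    have hgbij : Function.Bijective g := by
      rw [Fintype.bijective_iff_injective_and_card]
      exact ⟨hginj, by rw [hcardE, ZMod.card]⟩
    intro z
    obtain ⟨e, he⟩ := hgbij.2 z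
    obtain ⟨x, y, h1, h2, h3⟩ := horient e
    refine ⟨x, y, h2, h3, ?_⟩
    rw [← he]
    simp only [g, h1, hes]
  -- equivalences
  have eA : ZMod m ≃ Fin m := Fintype.equivFinOfCardEq (ZMod.card m)
  have eB : ZMod m × ZMod t ≃ Fin (t * m) := Fintype.equivFinOfCardEq (by
    rw [Fintype.card_prod, ZMod.card, ZMod.card, mul_comm])
  -- the copies
  let F : ZMod m × ZMod t → V → Fin m ⊕ Fin (t * m) := fun p x =>
    if side x then Sum.inl (eA ((lam x : ZMod m) + p.1))
    else Sum.inr (eB ((lam x : ZMod m) - p.1, χ x + p.2))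
  have hF1 : ∀ p x, side x → F p x = Sum.inl (eA ((lam x : ZMod m) + p.1)) :=
    fun p x h => if_pos h
  have hF2 : ∀ p x, ¬ side x → F p x = Sum.inr (eB ((lam x : ZMod m) - p.1, χ x + p.2)) :=
    fun p x h => if_neg h
  have hFinj : ∀ p, Function.Injective (F p) := by
    intro p x y hxy
    by_cases hx : side x <;> by_cases hy : side y
    · rw [hF1 p x hx, hF1 p y hy] at hxy
      have h1 := eA.injective (Sum.inl_injective hxy)
      have h2 : (lam x : ZMod m) = (lam y : ZMod m) := add_right_cancel h1
      have bx := hboundS x hx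
      have hby := hboundS y hy
      exact hinjS x y hx hy (hcast _ _ bx.1 bx.2 hby.1 hby.2 h2)
    · rw [hF1 p x hx, hF2 p y hy] at hxy
      exact absurd hxy (by simp)
    · rw [hF2 p x hx, hF1 p y hy] at hxy
      exact absurd hxy (by simp)
    · rw [hF2 p x hx, hF2 p y hy] at hxy
      have h1 := eB.injective (Sum.inr_injective hxy)
      have h2 : χ x + p.2 = χ y + p.2 := congrArg Prod.snd h1
      exact hχ x y hx hy (add_right_cancel h2)
  have hFadj : ∀ p x y, T.Adj x y → (completeBipartiteGraph (Fin m) (Fin (t * m))).Adj (F p x)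
      (F p y) := by
    intro p x y hxy
    by_cases hx : side x
    · have hy : ¬ side y := (hside x y hxy).mp hx
      rw [hF1 p x hx, hF2 p y hy]
      simp
    · have hy : side y := by
        by_contra h
        exact hx ((hside x y hxy).mpr h)
      rw [hF2 p x hx, hF1 p y hy]
      simp
  let φ : ZMod m × ZMod t → Copy T (completeBipartiteGraph (Fin m) (Fin (t * m))) := fun p =>
    ⟨⟨F p, fun {x y} h => hFadj p x y h⟩, hFinj p⟩
  have hφ : ∀ p x, φ p x = F p x := fun p x => rfl
  -- every host edge is covered exactly once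
  have hcov : ∀ (a : Fin m) (b : Fin (t * m)),
      ∃! p, ∃ x y, T.Adj x y ∧ F p x = Sum.inl a ∧ F p y = Sum.inr b := by
    intro a b
    set a' := eA.symm a with ha'
    set b' := eB.symm b with hb'
    have haa : a = eA a' := by simp [ha']
    have hbb : b = eB b' := by simp [hb']
    obtain ⟨x, y, hxy, hx, hz⟩ := hsurj (a' + b'.1)
    have hy : ¬ side y := (hside x y hxy).mp hx
    push_cast at hz
    refine ⟨(a' - lam x, b'.2 - χ y), ⟨x, y, hxy, ?_, ?_⟩, ?_⟩
    · rw [hF1 _ x hx, haa]
      simp
    · rw [hF2 _ y hy, hbb]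
      congr 2
      ext
      · simp only
        linear_combination hz
      · simp
    · rintro ⟨s, j⟩ ⟨x', y', hxy', h1, h2⟩
      have hx' : side x' := by
        by_contra h
        rw [hF2 _ x' h] at h1
        exact absurd h1 (by simp)
      have hy' : ¬ side y' := (hside x' y' hxy').mp hx'
      rw [hF1 _ x' hx', haa] at h1
      rw [hF2 _ y' hy', hbb] at h2
      have h1' : (lam x' : ZMod m) + s = a' := eA.injective (Sum.inl_injective h1)
      have h2' : ((lam y' : ZMod m) - s, χ y' + j) = b' := eB.injective (Sum.inr_injective h2)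
      have h3 : (lam y' : ZMod m) - s = b'.1 := congrArg Prod.fst h2'
      have h4 : χ y' + j = b'.2 := congrArg Prod.snd h2'
      have h5 : ((lam x' + lam y' : ℤ) : ZMod m) = ((lam x + lam y : ℤ) : ZMod m) := by
        push_cast
        rw [hz, ← h1', ← h3]
        ring
      have hr := hrange x y hxy
      have hr' := hrange x' y' hxy'
      have h6 := hcast _ _ hr'.1 hr'.2 hr.1 hr.2 h5
      obtain ⟨rfl, rfl⟩ := hinj x' y' x y hxy' hxy hx' hx h6
      ext
      · simp only
        rw [← h1']
        ring
      · simp only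
        rw [← h4]
        ring
  refine decomposes_of_copies φ ?_
  intro e he
  induction e using Sym2.ind with
  | _ u v =>
    have huv : (completeBipartiteGraph (Fin m) (Fin (t * m))).Adj u v := by simpa using he
    have hswap : ∀ p (u v : Fin m ⊕ Fin (t * m)), s(u, v) ∈ (φ p).toSubgraph.edgeSet ↔
        ∃ x y, T.Adj x y ∧ F p x = u ∧ F p y = v := fun p u v => mem_copy_edgeSet (φ p) u v
    rcases u with a | b <;> rcases v with a' | b'
    · simp at huv
    · obtain ⟨p, hp, hu⟩ := hcov a b'
      refine ⟨p, (hswap p _ _).mpr hp, ?_⟩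
      intro q hq
      exact hu q ((hswap q _ _).mp hq)
    · obtain ⟨p, hp, hu⟩ := hcov a' b
      refine ⟨p, ?_, ?_⟩
      · beta_reduce
        rw [Sym2.eq_swap]
        exact (hswap p _ _).mpr hp
      · intro q hq
        beta_reduce at hq
        rw [Sym2.eq_swap] at hq
        exact hu q ((hswap q _ _).mp hq)
    · simp at huv

theorem mul_mem_SS {n t : ℕ} (hn : 1 ≤ n) (ht : n ≤ t) : t * (2 * n - 1) ∈ SS n := by
  classical
  refine ⟨Nat.mul_pos (by omega) (by omega), ?_⟩
  rintro T ⟨hT, s, hs, hadj⟩
  refine decomposes_of_card_le (side := fun x => x ∈ s) hT hadj (m := 2 * n - 1)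
    (by rw [Fintype.card_fin]; omega) (by omega) ?_
  rw [Nat.card_eq_fintype_card, Fintype.card_subtype_compl]
  simp only [Fintype.card_fin, Fintype.card_coe, hs]
  omega

end Pool.Agent.MP7c15de
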