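import Mathlib
import Pool.Agent.Lib.MP_7c15de_co.Defs
import Pool.Agent.Lib.MP_7c15de_co.Main
import Pool.Agent.Lib.MP_7c15de_co.OneSided.Upper

set_option autoImplicit false

namespace Pool.Agent.Lib.MP_7c15de_co

open SimpleGraph

theorem decomposes_iff {V : Type} (T : SimpleGraph V) (m k : ℕ) :
    Decomposes T (completeBipartiteGraph (Fin m) (Fin k)) ↔
      ∃ (ι : Type) (f : ι → (V ↪ Fin m ⊕ Fin k)),
        (∀ i x y, T.Adj x y → (completeBipartiteGraph (Fin m) (Fin k)).Adj (f i x) (f i y)) ∧
        ∀ a b, ∃! i, ∃ x y, T.Adj x y ∧ f i x = Sum.inl a ∧ f i y = Sum.inr b := by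
  have key : ∀ (φ : V ↪ Fin m ⊕ Fin k) (u v : Fin m ⊕ Fin k),
      s(u, v) ∈ (T.map φ).edgeSet ↔ ∃ x y, T.Adj x y ∧ φ x = u ∧ φ y = v := by
    intro φ u v
    rw [SimpleGraph.mem_edgeSet, SimpleGraph.map_adj]
  constructor
  · rintro ⟨ι, f, h1, h2⟩
    refine ⟨ι, f, ?_, ?_⟩
    · intro i x y hxy
      exact h1 i (by rw [SimpleGraph.map_adj]; exact ⟨x, y, hxy, rfl, rfl⟩)
    · intro a b
      obtain ⟨i, hi, hu⟩ := h2 s(Sum.inl a, Sum.inr b) (by simp)
      exact ⟨i, (key _ _ _).mp hi, fun j hj => hu j ((key _ _ _).mpr hj)⟩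
  · rintro ⟨ι, f, h1, h2⟩
    refine ⟨ι, f, ?_, ?_⟩
    · intro i u v huv
      rw [SimpleGraph.map_adj] at huv
      obtain ⟨x, y, hxy, rfl, rfl⟩ := huv
      exact h1 i x y hxy
    · intro e he
      induction e using Sym2.ind with
      | _ u v =>
        have huv : (completeBipartiteGraph (Fin m) (Fin k)).Adj u v := by simpa using he
        rcases u with a | b <;> rcases v with a' | b'
        · simp at huv
        · obtain ⟨i, hi, hu⟩ := h2 a b'
          exact ⟨i, (key _ _ _).mpr hi, fun j hj => hu j ((key _ _ _).mp hj)⟩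
        · obtain ⟨i, hi, hu⟩ := h2 a' b
          refine ⟨i, ?_, ?_⟩
          · beta_reduce
            rw [Sym2.eq_swap]
            exact (key _ _ _).mpr hi
          · intro j hj
            rw [Sym2.eq_swap] at hj
            exact hu j ((key _ _ _).mp hj)
        · simp at huv

/-- The two definitions of decomposition agree in the direction we need. -/
theorem decomposes_of_subgraphs {V : Type} (T : SimpleGraph V) (m k : ℕ)
    (h : Pool.Agent.MP7c15de.Decomposes T (completeBipartiteGraph (Fin m) (Fin k))) :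
    Decomposes T (completeBipartiteGraph (Fin m) (Fin k)) := by
  obtain ⟨P, φ, hφ⟩ := Pool.Agent.MP7c15de.exists_copies_of_decomposes h
  rw [decomposes_iff]
  refine ⟨P, fun i => ⟨fun x => φ i x, (φ i).injective⟩, ?_, ?_⟩
  · intro i x y hxy
    exact (φ i).toHom.map_adj hxy
  · intro a b
    obtain ⟨i, hi, hu⟩ := hφ (Sum.inl a) (Sum.inr b) (by simp)
    exact ⟨i, hi, fun j hj => hu j hj⟩

theorem decomposes_add {V : Type} (T : SimpleGraph V) (m k l : ℕ)
    (hk : Decomposes T (completeBipartiteGraph (Fin m) (Fin k)))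
    (hl : Decomposes T (completeBipartiteGraph (Fin m) (Fin l))) :
    Decomposes T (completeBipartiteGraph (Fin m) (Fin (k + l))) := by
  rw [decomposes_iff] at hk hl ⊢
  obtain ⟨ι, f, f1, f2⟩ := hk
  obtain ⟨κ, g, g1, g2⟩ := hl
  let A : Fin m ⊕ Fin k ↪ Fin m ⊕ Fin (k + l) :=
    (Function.Embedding.refl _).sumMap (Fin.castAddEmb l)
  let B : Fin m ⊕ Fin l ↪ Fin m ⊕ Fin (k + l) :=
    (Function.Embedding.refl _).sumMap (Fin.natAddEmb k)
  have hA : ∀ u, A u = Sum.map id (Fin.castAdd l) u := fun u => rfl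
  have hB : ∀ u, B u = Sum.map id (Fin.natAdd k) u := fun u => rfl
  refine ⟨ι ⊕ κ, Sum.elim (fun i => (f i).trans A) (fun i => (g i).trans B), ?_, ?_⟩
  · rintro (i | i) x y hxy
    · have := f1 i x y hxy
      simp only [Sum.elim_inl, Function.Embedding.trans_apply, hA]
      revert this
      rcases f i x with a | b <;> rcases f i y with a' | b' <;> simp
    · have := g1 i x y hxy
      simp only [Sum.elim_inr, Function.Embedding.trans_apply, hB]
      revert this
      rcases g i x with a | b <;> rcases g i y with a' | b' <;> simp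
  · intro a b
    induction b using Fin.addCases with
    | left b =>
      obtain ⟨i, ⟨x, y, hxy, hx, hy⟩, hu⟩ := f2 a b
      refine ⟨Sum.inl i, ⟨x, y, hxy, ?_, ?_⟩, ?_⟩
      · simp [hA, hx]
      · simp [hA, hy]
      · rintro (j | j) ⟨x', y', hxy', hx', hy'⟩
        · simp only [Sum.elim_inl, Function.Embedding.trans_apply, hA] at hx' hy'
          congr 1
          apply hu j
          refine ⟨x', y', hxy', ?_, ?_⟩
          · revert hx'
            rcases f j x' with c | c <;> simp
          · revert hy'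
            rcases f j y' with c | c <;> simp
        · exfalso
          simp only [Sum.elim_inr, Function.Embedding.trans_apply, hB] at hx' hy'
          revert hy'
          rcases g j y' with c | c
          · simp
          · simp only [Sum.map_inr, Sum.inr.injEq]
            intro hc
            have := congrArg Fin.val hc
            simp at this
            omega
    | right b =>
      obtain ⟨i, ⟨x, y, hxy, hx, hy⟩, hu⟩ := g2 a b
      refine ⟨Sum.inr i, ⟨x, y, hxy, ?_, ?_⟩, ?_⟩
      · simp [hB, hx]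
      · simp [hB, hy]
      · rintro (j | j) ⟨x', y', hxy', hx', hy'⟩
        · exfalso
          simp only [Sum.elim_inl, Function.Embedding.trans_apply, hA] at hx' hy'
          revert hy'
          rcases f j y' with c | c
          · simp
          · simp only [Sum.map_inr, Sum.inr.injEq]
            intro hc
            have := congrArg Fin.val hc
            simp at this
            omega
        · simp only [Sum.elim_inr, Function.Embedding.trans_apply, hB] at hx' hy'
          congr 1
          apply hu j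
          refine ⟨x', y', hxy', ?_, ?_⟩
          · revert hx'
            rcases g j x' with c | c <;> simp
          · revert hy'
            rcases g j y' with c | c <;> simp

theorem add_mem_S {n k l : ℕ} (hk : k ∈ S n) (hl : l ∈ S n) : k + l ∈ S n := by
  refine ⟨Nat.add_pos_left hk.1 _, ?_⟩
  intro V _ T hT
  exact decomposes_add T _ _ _ (hk.2 V T hT) (hl.2 V T hT)

theorem mul_mem_S {n t : ℕ} (hn : 1 ≤ n) (ht : n ≤ t) : t * (2 * n - 1) ∈ S n := by
  classical
  refine ⟨Nat.mul_pos (by omega) (by omega), ?_⟩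
  rintro V _ T ⟨hT, c, hc, h1, h2⟩
  apply decomposes_of_subgraphs
  have hcard : Fintype.card V = 2 * n := by
    have h3 := Fintype.card_subtype_compl (fun v => c v = true)
    have h4 : Fintype.card {v // ¬ c v = true} = Fintype.card {v // c v = false} := by
      apply Fintype.card_congr
      apply Equiv.subtypeEquivRight
      intro v
      simp
    have h5 := Fintype.card_subtype_le (fun v => c v = true)
    omega
  refine Pool.Agent.MP7c15de.decomposes_of_card_le (side := fun x => c x = true) hT ?_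
    (m := 2 * n - 1) (by omega) (by omega) ?_
  · intro x y hxy
    have := hc x y hxy
    cases h : c x <;> cases h' : c y <;> simp_all
  · rw [Nat.card_eq_fintype_card]
    have h4 : Fintype.card {v // ¬ c v = true} = Fintype.card {v // c v = false} := by
      apply Fintype.card_congr
      apply Equiv.subtypeEquivRight
      intro v
      simp
    omega

theorem mul_pos_mem_S {n k : ℕ} (hk : k ∈ S n) : ∀ s : ℕ, 1 ≤ s → s * k ∈ S n := by
  intro s hs
  induction s, hs using Nat.le_induction with
  | base => simpa using hk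
  | succ s hs ih =>
    rw [add_mul, one_mul]
    exact add_mem_S ih hk

theorem cofinite_S {n a : ℕ} (hn : 1 ≤ n) (ha : 2 * n - 1 ≤ 2 ^ a) {k : ℕ}
    (hk : (n + 2 ^ a - 1) * (2 * n - 1) ≤ k) : k ∈ S n := by
  have h2 : 2 ^ a ∈ S n := by
    apply twoDense_mem_S n _ hn _ ha
    have := twoDense_pow_mul a 1 le_rfl (Nat.one_le_two_pow)
    simpa using this
  have hpos : 0 < 2 ^ a := by positivity
  -- choose `t` with `t (2n-1) ≡ k (mod 2^a)`
  have hcop : Nat.Coprime (2 * n - 1) (2 ^ a) := by
    apply Nat.Coprime.pow_right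
    rw [Nat.coprime_two_right]
    exact ⟨n - 1, by omega⟩
  obtain ⟨t, ht1, ht2, ht3⟩ : ∃ t, n ≤ t ∧ t ≤ n + 2 ^ a - 1 ∧
      t * (2 * n - 1) ≡ k [MOD 2 ^ a] := by
    obtain ⟨y, hy⟩ := Nat.exists_mul_mod_eq_of_coprime k hcop hpos.ne'
    -- `(2n-1) y ≡ k`
    refine ⟨n + ((y + (2 ^ a - n % 2 ^ a)) % 2 ^ a), by omega, ?_, ?_⟩
    · have := Nat.mod_lt (y + (2 ^ a - n % 2 ^ a)) hpos
      omega
    · have e1 : n + ((y + (2 ^ a - n % 2 ^ a)) % 2 ^ a) ≡ y [MOD 2 ^ a] := by
        have s1 : n + ((y + (2 ^ a - n % 2 ^ a)) % 2 ^ a) ≡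
            n + (y + (2 ^ a - n % 2 ^ a)) [MOD 2 ^ a] :=
          Nat.ModEq.add_left _ (Nat.mod_modEq _ _)
        refine s1.trans ?_
        have s2 : n + (y + (2 ^ a - n % 2 ^ a)) = y + 2 ^ a * (n / 2 ^ a + 1) := by
          have := Nat.div_add_mod n (2 ^ a)
          have := Nat.mod_lt n hpos
          rw [mul_add]
          omega
        rw [s2]
        simp [Nat.ModEq]
      have e2 := e1.mul_right (2 * n - 1)
      refine e2.trans ?_
      rw [mul_comm]
      exact hy.2
  have hle : t * (2 * n - 1) ≤ k :=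
    le_trans (Nat.mul_le_mul_right _ ht2) hk
  have hdvd : 2 ^ a ∣ k - t * (2 * n - 1) := (Nat.modEq_iff_dvd' hle).mp ht3
  obtain ⟨s, hs⟩ := hdvd
  have hk' : k = t * (2 * n - 1) + s * 2 ^ a := by
    rw [mul_comm s, ← hs]
    omega
  rw [hk']
  rcases Nat.eq_zero_or_pos s with h0 | h0
  · rw [h0]
    simpa using mul_mem_S hn ht1
  · exact add_mem_S (mul_mem_S hn ht1) (mul_pos_mem_S h2 s h0)

end Pool.Agent.Lib.MP_7c15de_co
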