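import Mathlib
import Pool.Agent.Lib.MP_7c15de_co.OneSided.Defs

set_option autoImplicit false

namespace Pool.Agent.MP7c15de

open SimpleGraph

/-- A graph given by a parent function is a tree. -/
theorem isTree_of_parent {V : Type*} [Fintype V] {G : SimpleGraph V} (r : V) (par : V → V)
    (rk : V → ℕ) (h1 : ∀ x, x ≠ r → G.Adj x (par x))
    (h2 : ∀ x y, G.Adj x y → (x ≠ r ∧ par x = y) ∨ (y ≠ r ∧ par y = x))
    (h3 : ∀ x, x ≠ r → rk (par x) < rk x) : G.IsTree := by
  classical
  have hreach : ∀ N x, rk x ≤ N → G.Reachable x r := by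
    intro N
    induction N with
    | zero =>
      intro x hx
      by_cases hxr : x = r
      · subst hxr; exact Reachable.refl _
      · have := h3 x hxr
        omega
    | succ N ih =>
      intro x hx
      by_cases hxr : x = r
      · subst hxr; exact Reachable.refl _
      · have := h3 x hxr
        exact (h1 x hxr).reachable.trans (ih _ (by omega))
  have hconn : G.Connected := by
    have : Nonempty V := ⟨r⟩
    exact ⟨fun x y => (hreach _ x le_rfl).trans (hreach _ y le_rfl).symm⟩
  rw [isTree_iff_connected_and_card]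
  refine ⟨hconn, le_antisymm ?_ hconn.card_vert_le_card_edgeSet_add_one⟩
  have hsurj : Function.Surjective
      (fun x : {x : V // x ≠ r} => (⟨s(x.1, par x.1), h1 x.1 x.2⟩ : G.edgeSet)) := by
    rintro ⟨e, he⟩
    induction e using Sym2.ind with
    | _ x y =>
      have hxy : G.Adj x y := by simpa using he
      rcases h2 x y hxy with ⟨hx, hp⟩ | ⟨hy, hp⟩
      · exact ⟨⟨x, hx⟩, Subtype.ext (by simp only [hp])⟩
      · exact ⟨⟨y, hy⟩, Subtype.ext (by simp only [hp]; exact Sym2.eq_swap)⟩
  have hle : Nat.card G.edgeSet ≤ Nat.card {x : V // x ≠ r} :=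
    Nat.card_le_card_of_surjective _ hsurj
  have hc : Nat.card {x : V // x ≠ r} + 1 = Nat.card V := by
    rw [Nat.card_eq_fintype_card, Nat.card_eq_fintype_card, Fintype.card_subtype_compl]
    have : 0 < Fintype.card V := Fintype.card_pos_iff.mpr ⟨r⟩
    simp
    omega
  omega

section Copies

variable {V W : Type*} [Fintype V] [Fintype W] [DecidableEq V] [DecidableEq W]
  {T : SimpleGraph V} {H : SimpleGraph W} [DecidableRel T.Adj] [DecidableRel H.Adj]
  {P : Type*} [Fintype P] {φ : P → Copy T H}

/-- the host neighbours of `v` along edges covered by the copy `p` -/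
def nb (φ : P → Copy T H) (p : P) (v : W) : Finset W :=
  Finset.univ.filter (fun u => ∃ x y, T.Adj x y ∧ φ p x = v ∧ φ p y = u)

theorem mem_nb {p : P} {v u : W} :
    u ∈ nb φ p v ↔ ∃ x y, T.Adj x y ∧ φ p x = v ∧ φ p y = u := by
  simp [nb]

theorem card_nb (p : P) (x : V) : (nb φ p (φ p x)).card = T.degree x := by
  have hinj : Function.Injective (φ p) := (φ p).injective
  have : nb φ p (φ p x) = (T.neighborFinset x).image (φ p) := by
    ext u
    rw [mem_nb, Finset.mem_image]
    constructor
    · rintro ⟨x', y, hxy, h1, h2⟩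
      have := hinj h1
      subst this
      exact ⟨y, by simpa using hxy, h2⟩
    · rintro ⟨y, hy, h⟩
      exact ⟨x, y, by simpa using hy, rfl, h⟩
  rw [this, Finset.card_image_of_injective _ hinj, card_neighborFinset_eq_degree]

theorem nb_eq_empty (p : P) (v : W) (h : ∀ x, φ p x ≠ v) : nb φ p v = ∅ := by
  ext u
  rw [mem_nb]
  simp only [Finset.notMem_empty, iff_false, not_exists, not_and]
  intro x y _ hx
  exact absurd hx (h x)

theorem degree_sum (hφ : ∀ a b, H.Adj a b → ∃! i, ∃ x y, T.Adj x y ∧ φ i x = a ∧ φ i y = b)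
    (v : W) : ∑ p, (nb φ p v).card = H.degree v := by
  rw [← card_neighborFinset_eq_degree, ← Finset.card_biUnion]
  · congr 1
    ext u
    simp only [Finset.mem_biUnion, Finset.mem_univ, true_and, mem_neighborFinset]
    constructor
    · rintro ⟨p, hp⟩
      rw [mem_nb] at hp
      obtain ⟨x, y, hxy, h1, h2⟩ := hp
      rw [← h1, ← h2]
      exact (φ p).toHom.map_adj hxy
    · intro huv
      obtain ⟨p, hp, _⟩ := hφ v u huv
      exact ⟨p, mem_nb.mpr hp⟩
  · intro p _ q _ hpq
    rw [Function.onFun, Finset.disjoint_left]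
    intro u hu hu'
    rw [mem_nb] at hu hu'
    apply hpq
    have hadj : H.Adj v u := by
      obtain ⟨x, y, hxy, h1, h2⟩ := hu
      rw [← h1, ← h2]
      exact (φ p).toHom.map_adj hxy
    obtain ⟨i, hi, hun⟩ := hφ v u hadj
    rw [hun p hu, hun q hu']

theorem sum_card_nb (p : P) : ∑ v, (nb φ p v).card = ∑ x, T.degree x := by
  have hinj : Function.Injective (φ p) := (φ p).injective
  rw [← Finset.sum_subset (Finset.subset_univ (Finset.univ.image (φ p)))]
  · rw [Finset.sum_image (fun x _ y _ h => hinj h)]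
    exact Finset.sum_congr rfl (fun x _ => card_nb p x)
  · intro v _ hv
    rw [nb_eq_empty, Finset.card_empty]
    intro x hx
    exact hv (Finset.mem_image.mpr ⟨x, Finset.mem_univ _, hx⟩)

theorem card_mul (hφ : ∀ a b, H.Adj a b → ∃! i, ∃ x y, T.Adj x y ∧ φ i x = a ∧ φ i y = b) :
    Fintype.card P * ∑ x, T.degree x = ∑ v, H.degree v := by
  rw [← Finset.sum_congr rfl (fun v _ => degree_sum hφ v), Finset.sum_comm,
    Finset.sum_congr rfl (fun p _ => sum_card_nb (φ := φ) p)]
  simp

end Copies

section Bip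

theorem degree_inl {m k : ℕ} [DecidableRel (completeBipartiteGraph (Fin m) (Fin k)).Adj]
    (a : Fin m) : (completeBipartiteGraph (Fin m) (Fin k)).degree (Sum.inl a) = k := by
  classical
  rw [← card_neighborFinset_eq_degree]
  have : (completeBipartiteGraph (Fin m) (Fin k)).neighborFinset (Sum.inl a) =
      (Finset.univ : Finset (Fin k)).map ⟨Sum.inr, Sum.inr_injective⟩ := by
    ext u
    rw [mem_neighborFinset]
    rcases u with u | u <;> simp
  rw [this]
  simp

theorem degree_inr {m k : ℕ} [DecidableRel (completeBipartiteGraph (Fin m) (Fin k)).Adj]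
    (b : Fin k) : (completeBipartiteGraph (Fin m) (Fin k)).degree (Sum.inr b) = m := by
  classical
  rw [← card_neighborFinset_eq_degree]
  have : (completeBipartiteGraph (Fin m) (Fin k)).neighborFinset (Sum.inr b) =
      (Finset.univ : Finset (Fin m)).map ⟨Sum.inl, Sum.inl_injective⟩ := by
    ext u
    rw [mem_neighborFinset]
    rcases u with u | u <;> simp
  rw [this]
  simp

/-- The setting: a decomposition of `K_{2n-1,k}` into copies of a balanced tree, `n ≥ 1`. -/
theorem setting {n k : ℕ} (hn : 1 ≤ n) {T : SimpleGraph (Fin (2 * n))} (hT : T.IsTree)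
    [DecidableRel T.Adj]
    (hdec : Decomposes T (completeBipartiteGraph (Fin (2 * n - 1)) (Fin k))) :
    ∃ φ : Fin k → Copy T (completeBipartiteGraph (Fin (2 * n - 1)) (Fin k)),
      ∀ a b, (completeBipartiteGraph (Fin (2 * n - 1)) (Fin k)).Adj a b →
        ∃! i, ∃ x y, T.Adj x y ∧ φ i x = a ∧ φ i y = b := by
  classical
  obtain ⟨P, φ, hφ⟩ := exists_copies_of_decomposes hdec
  have : Finite P := inferInstance
  have : Fintype P := Fintype.ofFinite P
  have h1 := card_mul hφ
  have h2 : ∑ x, T.degree x = 2 * (2 * n - 1) := by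
    rw [sum_degrees_eq_twice_card_edges]
    have := hT.card_edgeFinset
    rw [Fintype.card_fin] at this
    omega
  have h3 : ∑ v, (completeBipartiteGraph (Fin (2 * n - 1)) (Fin k)).degree v =
      2 * (2 * n - 1) * k := by
    rw [Fintype.sum_sum_type, Finset.sum_congr rfl (fun a _ => degree_inl a),
      Finset.sum_congr rfl (fun b _ => degree_inr b)]
    simp
    ring
  rw [h2, h3, mul_comm] at h1
  have h4 : Fintype.card P = k := Nat.eq_of_mul_eq_mul_left (by omega) h1
  have e : Fin k ≃ P := (Fintype.equivFinOfCardEq h4).symm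
  refine ⟨fun i => φ (e i), ?_⟩
  intro a b hab
  obtain ⟨p, hp, hu⟩ := hφ a b hab
  refine ⟨e.symm p, ?_, ?_⟩
  · simpa using hp
  · intro j hj
    have := hu (e j) hj
    rw [← this, e.symm_apply_apply]

end Bip

end Pool.Agent.MP7c15de
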