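import Mathlib
import Pool.Agent.Lib.MP_7c15de_co.OneSided.Lower

set_option autoImplicit false

namespace Pool.Agent.MP7c15de

open SimpleGraph

/-- a copy of a connected bipartite graph in a complete bipartite graph respects the classes -/
theorem side_consistent {V : Type*} {T : SimpleGraph V} (hT : T.Connected) {side : V → Prop}
    (hside : ∀ x y, T.Adj x y → (side x ↔ ¬ side y)) {m k : ℕ}
    (φ : Copy T (completeBipartiteGraph (Fin m) (Fin k))) (x y : V) :
    (side x ↔ side y) ↔ ((φ x).isLeft = (φ y).isLeft) := by
  obtain ⟨w⟩ := hT.preconnected x y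
  induction w with
  | nil => simp
  | @cons u v w h p ih =>
    have h1 := hside u v h
    have h2 : (φ u).isLeft ≠ (φ v).isLeft := by
      have := φ.toHom.map_adj h
      rw [Copy.toHom_apply, Copy.toHom_apply] at this
      rw [completeBipartiteGraph_adj] at this
      rcases hu : φ u with a | a <;> rcases hv : φ v with b | b <;> simp_all
    rcases hu : (φ u).isLeft <;> rcases hv : (φ v).isLeft <;> rcases hw : (φ w).isLeft <;>
      simp_all <;> tauto

theorem card_lt_side (n : ℕ) :
    (Finset.univ.filter (fun x : Fin (2 * n) => x.val < n)).card = n := by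
  have h : (Finset.univ.filter (fun x : Fin (2 * n) => x.val < n)).card =
      (Finset.univ : Finset (Fin n)).card := by
    refine (Finset.card_bij (fun (i : Fin n) _ => (⟨i.val, by omega⟩ : Fin (2 * n)))
      ?_ ?_ ?_).symm
    · intro i _
      simp
    · intro i _ j _ h
      exact Fin.ext (Fin.mk.inj_iff.mp h)
    · intro x hx
      rw [Finset.mem_filter] at hx
      exact ⟨⟨x.val, hx.2⟩, Finset.mem_univ _, rfl⟩
  rw [h, Finset.card_univ, Fintype.card_fin]

theorem card_even_side (n : ℕ) :
    (Finset.univ.filter (fun x : Fin (2 * n) => x.val % 2 = 0)).card = n := by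
  have h : (Finset.univ.filter (fun x : Fin (2 * n) => x.val % 2 = 0)).card =
      (Finset.univ : Finset (Fin n)).card := by
    refine (Finset.card_bij (fun (i : Fin n) _ => (⟨2 * i.val, by omega⟩ : Fin (2 * n)))
      ?_ ?_ ?_).symm
    · intro i _
      simp
    · intro i _ j _ h
      have := Fin.mk.inj_iff.mp h
      exact Fin.ext (by omega)
    · intro x hx
      rw [Finset.mem_filter] at hx
      exact ⟨⟨x.val / 2, by omega⟩, Finset.mem_univ _, Fin.ext (by simp only; omega)⟩
  rw [h, Finset.card_univ, Fintype.card_fin]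

/-! ### The path -/

theorem path_balanced {n : ℕ} (hn : 1 ≤ n) : IsBalancedTree n (pathGraph (2 * n)) := by
  constructor
  · refine isTree_of_parent (⟨0, by omega⟩ : Fin (2 * n)) (fun x => ⟨x.val - 1, by omega⟩)
      (fun x => x.val) ?_ ?_ ?_
    · intro x hx
      have : x.val ≠ 0 := fun h => hx (Fin.ext h)
      rw [pathGraph_adj]
      right
      simp only
      omega
    · intro x y hxy
      rw [pathGraph_adj] at hxy
      rcases hxy with h | h
      · right
        refine ⟨fun h' => ?_, Fin.ext ?_⟩
        · rw [h'] at h; simp at h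
        · simp only; omega
      · left
        refine ⟨fun h' => ?_, Fin.ext ?_⟩
        · rw [h'] at h; simp at h
        · simp only; omega
    · intro x hx
      have : x.val ≠ 0 := fun h => hx (Fin.ext h)
      simp only
      omega
  · refine ⟨Finset.univ.filter (fun x : Fin (2 * n) => x.val % 2 = 0), card_even_side n, ?_⟩
    intro x y hxy
    rw [pathGraph_adj] at hxy
    simp only [Finset.mem_filter, Finset.mem_univ, true_and]
    omega

theorem path_degree {n : ℕ} [DecidableRel (pathGraph (2 * n)).Adj] (x : Fin (2 * n))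
    (h0 : x.val ≠ 0) (h1 : x.val ≠ 2 * n - 1) : (pathGraph (2 * n)).degree x = 2 := by
  rw [← card_neighborFinset_eq_degree]
  have : (pathGraph (2 * n)).neighborFinset x =
      {(⟨x.val - 1, by omega⟩ : Fin (2 * n)), (⟨x.val + 1, by omega⟩ : Fin (2 * n))} := by
    ext y
    rw [mem_neighborFinset, pathGraph_adj]
    simp only [Finset.mem_insert, Finset.mem_singleton, Fin.ext_iff]
    omega
  rw [this, Finset.card_pair]
  intro h
  rw [Fin.ext_iff] at h
  simp only at h
  omega

/-- **Parity obstruction.** If the path with `2n` vertices decomposes `K_{2n-1,k}` with `k` odd,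
then `2n-1 ≤ k`. -/
theorem path_odd {n k : ℕ} (hn : 1 ≤ n) (hk : Odd k)
    (hdec : Decomposes (pathGraph (2 * n)) (completeBipartiteGraph (Fin (2 * n - 1)) (Fin k))) :
    2 * n - 1 ≤ k := by
  classical
  have hT := (path_balanced hn).1
  obtain ⟨φ, hφ⟩ := setting hn hT hdec
  have hside : ∀ x y, (pathGraph (2 * n)).Adj x y → (x.val % 2 = 0 ↔ ¬ y.val % 2 = 0) := by
    intro x y hxy
    rw [pathGraph_adj] at hxy
    omega
  have key : ∀ a : Fin (2 * n - 1), ∃ p : Fin k, ∃ x : Fin (2 * n),
      (x.val = 0 ∨ x.val = 2 * n - 1) ∧ φ p x = Sum.inl a := by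
    intro a
    by_contra hcon
    push Not at hcon
    have hsum := degree_sum hφ (Sum.inl a)
    rw [degree_inl] at hsum
    have heven : Even (∑ p, (nb φ p (Sum.inl a)).card) := by
      apply Finset.even_sum
      intro p _
      by_cases hx : ∃ x, φ p x = Sum.inl a
      · obtain ⟨x, hx⟩ := hx
        rw [← hx, card_nb]
        have h0 : x.val ≠ 0 := fun h => hcon p x (Or.inl h) hx
        have h1 : x.val ≠ 2 * n - 1 := fun h => hcon p x (Or.inr h) hx
        rw [path_degree x h0 h1]
        exact even_two
      · push Not at hx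
        rw [nb_eq_empty p _ hx]
        simp
    rw [hsum] at heven
    exact (Nat.not_even_iff_odd.mpr hk) heven
  choose f g hg using key
  have hinj : Function.Injective f := by
    intro a a' haa
    obtain ⟨h1, h2⟩ := hg a
    obtain ⟨h1', h2'⟩ := hg a'
    rw [← haa] at h2'
    have hc := side_consistent hT.connected hside (φ (f a)) (g a) (g a')
    rw [h2, h2'] at hc
    have hpar := hc.mpr rfl
    have hgg : g a = g a' := by
      apply Fin.ext
      omega
    rw [hgg, h2'] at h2
    exact (Sum.inl_injective h2).symm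
  have := Fintype.card_le_of_injective f hinj
  simpa using this

/-! ### The double broom -/

/-- The tree with classes `0, …, n-1` and `n, …, 2n-1`: `0` is adjacent to all of the second class
except `n`, `n` is adjacent to all of the first class except `0`, and `1` is adjacent
to `n+1`. -/
def broom (n : ℕ) : SimpleGraph (Fin (2 * n)) where
  Adj x y := (x.val < n ∧ n ≤ y.val ∧ ((x.val = 0 ∧ y.val ≠ n) ∨ (x.val ≠ 0 ∧ y.val = n) ∨
      (x.val = 1 ∧ y.val = n + 1))) ∨
    (y.val < n ∧ n ≤ x.val ∧ ((y.val = 0 ∧ x.val ≠ n) ∨ (y.val ≠ 0 ∧ x.val = n) ∨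
      (y.val = 1 ∧ x.val = n + 1)))
  symm := ⟨fun x y h => Or.symm h⟩
  loopless := ⟨fun x h => by omega⟩

theorem broom_adj {n : ℕ} {x y : Fin (2 * n)} : (broom n).Adj x y ↔
    (x.val < n ∧ n ≤ y.val ∧ ((x.val = 0 ∧ y.val ≠ n) ∨ (x.val ≠ 0 ∧ y.val = n) ∨
      (x.val = 1 ∧ y.val = n + 1))) ∨
    (y.val < n ∧ n ≤ x.val ∧ ((y.val = 0 ∧ x.val ≠ n) ∨ (y.val ≠ 0 ∧ x.val = n) ∨
      (y.val = 1 ∧ x.val = n + 1))) := Iff.rfl

/-- the parent function of the double broom -/
def parN (n v : ℕ) : ℕ :=
  if v < n then (if v = 1 then n + 1 else n) else (if v = n then 1 else 0)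

theorem parN_spec (n v : ℕ) : (v < n ∧ v = 1 ∧ parN n v = n + 1) ∨
    (v < n ∧ v ≠ 1 ∧ parN n v = n) ∨ (n ≤ v ∧ v = n ∧ parN n v = 1) ∨
    (n ≤ v ∧ v ≠ n ∧ parN n v = 0) := by
  unfold parN
  split_ifs <;> omega

/-- the rank function of the double broom -/
def rkN (n v : ℕ) : ℕ :=
  if v < n then (if v = 0 then 0 else if v = 1 then 2 else 4) else (if v = n then 3 else 1)

theorem rkN_spec (n v : ℕ) : (v < n ∧ v = 0 ∧ rkN n v = 0) ∨ (v < n ∧ v = 1 ∧ rkN n v = 2) ∨
    (v < n ∧ v ≠ 0 ∧ v ≠ 1 ∧ rkN n v = 4) ∨ (n ≤ v ∧ v = n ∧ rkN n v = 3) ∨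
    (n ≤ v ∧ v ≠ n ∧ rkN n v = 1) := by
  unfold rkN
  split_ifs <;> omega

theorem broom_balanced {n : ℕ} (hn : 2 ≤ n) : IsBalancedTree n (broom n) := by
  constructor
  · refine isTree_of_parent (⟨0, by omega⟩ : Fin (2 * n))
      (fun x => ⟨parN n x.val, by have := parN_spec n x.val; have := x.2; omega⟩)
      (fun x => rkN n x.val) ?_ ?_ ?_
    · intro x hx
      have hx0 : x.val ≠ 0 := fun h => hx (Fin.ext h)
      have h1 := parN_spec n x.val
      have h2 := x.2
      rw [broom_adj]
      simp only
      omega
    · intro x y hxy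
      rw [broom_adj] at hxy
      have h1 := parN_spec n x.val
      have h2 := parN_spec n y.val
      simp only [ne_eq, Fin.ext_iff]
      omega
    · intro x hx
      have hx0 : x.val ≠ 0 := fun h => hx (Fin.ext h)
      have h1 := parN_spec n x.val
      have h2 := rkN_spec n x.val
      have h3 := rkN_spec n (parN n x.val)
      simp only
      omega
  · refine ⟨Finset.univ.filter (fun x : Fin (2 * n) => x.val < n), card_lt_side n, ?_⟩
    intro x y hxy
    rw [broom_adj] at hxy
    simp only [Finset.mem_filter, Finset.mem_univ, true_and]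
    omega

theorem broom_degree_zero {n : ℕ} (hn : 2 ≤ n) [DecidableRel (broom n).Adj] (x : Fin (2 * n))
    (hx : x.val = 0 ∨ x.val = n) : (broom n).degree x = n - 1 := by
  rw [← card_neighborFinset_eq_degree]
  have h : ((broom n).neighborFinset x).card = (Finset.univ : Finset (Fin (n - 1))).card := by
    rcases hx with hx | hx
    · refine (Finset.card_bij (fun (i : Fin (n - 1)) _ => (⟨n + 1 + i.val, by omega⟩ : Fin (2 * n)))
        ?_ ?_ ?_).symm
      · intro i _
        rw [mem_neighborFinset, broom_adj]
        simp only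
        omega
      · intro i _ j _ h
        have := Fin.mk.inj_iff.mp h
        exact Fin.ext (by omega)
      · intro y hy
        rw [mem_neighborFinset, broom_adj] at hy
        refine ⟨⟨y.val - (n + 1), by omega⟩, Finset.mem_univ _, Fin.ext ?_⟩
        simp only
        omega
    · refine (Finset.card_bij (fun (i : Fin (n - 1)) _ => (⟨1 + i.val, by omega⟩ : Fin (2 * n)))
        ?_ ?_ ?_).symm
      · intro i _
        rw [mem_neighborFinset, broom_adj]
        simp only
        omega
      · intro i _ j _ h
        have := Fin.mk.inj_iff.mp h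
        exact Fin.ext (by omega)
      · intro y hy
        rw [mem_neighborFinset, broom_adj] at hy
        refine ⟨⟨y.val - 1, by omega⟩, Finset.mem_univ _, Fin.ext ?_⟩
        simp only
        omega
  rw [h, Finset.card_univ, Fintype.card_fin]

theorem broom_leaf {n : ℕ} (hn : 2 ≤ n) [DecidableRel (broom n).Adj] (z z' : Fin (2 * n))
    (hz0 : z.val ≠ 0) (hzn : z.val ≠ n) (hd : (broom n).degree z ≤ 1) (h : (broom n).Adj z z') :
    (z.val < n ∧ z'.val = n) ∨ (n ≤ z.val ∧ z'.val = 0) := by
  have h2 : ∀ a b : Fin (2 * n), (broom n).Adj z a → (broom n).Adj z b → a = b := by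
    intro a b ha hb
    rw [← card_neighborFinset_eq_degree] at hd
    exact Finset.card_le_one.mp hd a ((mem_neighborFinset _ _ _).mpr ha) b
      ((mem_neighborFinset _ _ _).mpr hb)
  have h1 : z.val ≠ 1 := by
    intro h1
    have ha : (broom n).Adj z ⟨n, by omega⟩ := by
      rw [broom_adj]
      left
      exact ⟨by omega, le_rfl, Or.inr (Or.inl ⟨hz0, rfl⟩)⟩
    have hb : (broom n).Adj z ⟨n + 1, by omega⟩ := by
      rw [broom_adj]
      left
      exact ⟨by omega, Nat.le_succ n, Or.inr (Or.inr ⟨h1, rfl⟩)⟩
    have := Fin.mk.inj_iff.mp (h2 _ _ ha hb)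
    omega
  have h1' : z.val ≠ n + 1 := by
    intro h1
    have ha : (broom n).Adj z ⟨0, by omega⟩ := by
      rw [broom_adj]
      right
      exact ⟨by show 0 < n; omega, by omega, Or.inl ⟨rfl, hzn⟩⟩
    have hb : (broom n).Adj z ⟨1, by omega⟩ := by
      rw [broom_adj]
      right
      exact ⟨by show 1 < n; omega, by omega, Or.inr (Or.inr ⟨rfl, h1⟩)⟩
    have := Fin.mk.inj_iff.mp (h2 _ _ ha hb)
    omega
  rw [broom_adj] at h
  omega

/-- **The double broom does not decompose `K_{2n-1,n}`** for `n ≥ 4`. -/
theorem broom_not {n : ℕ} (hn : 4 ≤ n)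
    (hdec : Decomposes (broom n) (completeBipartiteGraph (Fin (2 * n - 1)) (Fin n))) : False := by
  classical
  have hT := (broom_balanced (n := n) (by omega)).1
  obtain ⟨φ, hφ⟩ := setting (by omega) hT hdec
  have hside : ∀ x y, (broom n).Adj x y → (x.val < n ↔ ¬ y.val < n) := by
    intro x y hxy
    rw [broom_adj] at hxy
    omega
  have hcons := fun p x y => side_consistent hT.connected hside (φ p) x y
  have hinj : ∀ p, Function.Injective (φ p) := fun p => (φ p).injective
  let v0 : Fin (2 * n) := ⟨0, by omega⟩
  let vn : Fin (2 * n) := ⟨n, by omega⟩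
  -- every copy covers the whole second class
  have hcover : ∀ p (b : Fin n), ∃ z, φ p z = Sum.inr b := by
    intro p
    -- the vertices sent to the right
    let R : Finset (Fin (2 * n)) := Finset.univ.filter (fun z => (φ p z).isLeft = false)
    have hR : R.card = n := by
      by_cases h0 : (φ p v0).isLeft = false
      · have : R = Finset.univ.filter (fun x : Fin (2 * n) => x.val < n) := by
          ext z
          simp only [R, Finset.mem_filter, Finset.mem_univ, true_and]
          have := hcons p v0 z
          rw [h0] at this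
          have hv : v0.val < n := by show 0 < n; omega
          simp only [hv, true_iff] at this
          rw [this]
          exact eq_comm
        rw [this, card_lt_side]
      · have : R = (Finset.univ.filter (fun x : Fin (2 * n) => x.val < n))ᶜ := by
          ext z
          simp only [R, Finset.mem_filter, Finset.mem_univ, true_and, Finset.mem_compl]
          have := hcons p v0 z
          have hv : v0.val < n := by show 0 < n; omega
          simp only [hv, true_iff] at this
          rw [this]
          rw [Bool.not_eq_false] at h0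
          rw [h0]
          cases (φ p z).isLeft <;> simp
        rw [this, Finset.card_compl, card_lt_side, Fintype.card_fin]
        omega
    have himg : R.image (φ p) = (Finset.univ : Finset (Fin n)).image Sum.inr := by
      apply Finset.eq_of_subset_of_card_le
      · intro u hu
        rw [Finset.mem_image] at hu
        obtain ⟨z, hz, rfl⟩ := hu
        simp only [R, Finset.mem_filter, Finset.mem_univ, true_and] at hz
        rcases hz' : φ p z with c | c
        · rw [hz'] at hz; simp at hz
        · exact Finset.mem_image.mpr ⟨c, Finset.mem_univ _, rfl⟩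
      · rw [Finset.card_image_of_injective _ Sum.inr_injective,
          Finset.card_image_of_injective _ (hinj p), hR, Finset.card_univ, Fintype.card_fin]
    intro b
    have : (Sum.inr b : Fin (2 * n - 1) ⊕ Fin n) ∈ R.image (φ p) := by
      rw [himg]
      exact Finset.mem_image.mpr ⟨b, Finset.mem_univ _, rfl⟩
    obtain ⟨z, _, hz⟩ := Finset.mem_image.mp this
    exact ⟨z, hz⟩
  -- every vertex has positive degree
  have hpos : ∀ z : Fin (2 * n), 1 ≤ (broom n).degree z := by
    intro z
    have : Nontrivial (Fin (2 * n)) := ⟨⟨v0, vn, by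
      intro h
      have := congrArg Fin.val h
      simp only [v0, vn] at this
      omega⟩⟩
    exact hT.connected.preconnected.degree_pos_of_nontrivial z
  -- for each copy the big vertex on the left and the big vertex on the right
  have hbig : ∀ p, ∃ x y : Fin (2 * n), (x.val = 0 ∧ y.val = n ∨ x.val = n ∧ y.val = 0) ∧
      (∃ a, φ p x = Sum.inl a) ∧ (∃ b, φ p y = Sum.inr b) := by
    intro p
    have hc := hcons p v0 vn
    have hv0 : v0.val < n := by show 0 < n; omega
    have hvn : ¬ vn.val < n := by show ¬ n < n; omega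
    simp only [hv0, hvn, iff_false, not_true_eq_false, false_iff] at hc
    rcases h0 : φ p v0 with a | b <;> rcases hn' : φ p vn with a' | b'
    · rw [h0, hn'] at hc; simp at hc
    · exact ⟨v0, vn, Or.inl ⟨rfl, rfl⟩, ⟨a, h0⟩, ⟨b', hn'⟩⟩
    · exact ⟨vn, v0, Or.inr ⟨rfl, rfl⟩, ⟨a', hn'⟩, ⟨b, h0⟩⟩
    · rw [h0, hn'] at hc; simp at hc
  choose X Y hXY hX hY using hbig
  choose α hα using hX
  choose β hβ using hY
  have hdX : ∀ p, (broom n).degree (X p) = n - 1 := fun p =>
    broom_degree_zero (by omega) _ (by rcases hXY p with h | h <;> simp [h.1])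
  have hdY : ∀ p, (broom n).degree (Y p) = n - 1 := fun p =>
    broom_degree_zero (by omega) _ (by rcases hXY p with h | h <;> simp [h.2])
  -- `β` is injective
  have hβinj : ∀ p q, β p = β q → p = q := by
    intro p q hpq
    by_contra hne
    have hsum := degree_sum hφ (Sum.inr (β p))
    rw [degree_inr] at hsum
    have hle : ∑ r : Fin n, (1 + (if r = p then n - 2 else 0) + (if r = q then n - 2 else 0)) ≤
        ∑ r, (nb φ r (Sum.inr (β p))).card := by
      apply Finset.sum_le_sum
      intro r _
      by_cases hrp : r = p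
      · subst hrp
        rw [if_pos rfl, if_neg hne, ← hβ, card_nb, hdY]
        omega
      · by_cases hrq : r = q
        · subst hrq
          rw [if_neg hrp, if_pos rfl, hpq, ← hβ, card_nb, hdY]
          omega
        · rw [if_neg hrp, if_neg hrq]
          obtain ⟨z, hz⟩ := hcover r (β p)
          rw [← hz, card_nb]
          exact hpos z
    rw [hsum, Finset.sum_add_distrib, Finset.sum_add_distrib] at hle
    simp at hle
    omega
  -- the host edge joining the two big vertices of the copy `p`
  let p : Fin n := ⟨0, by omega⟩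
  obtain ⟨q, ⟨z, z', hzz, hz, hz'⟩, _⟩ := hφ (Sum.inl (α p)) (Sum.inr (β p)) (by simp)
  have hqp : q ≠ p := by
    rintro rfl
    rw [← hα] at hz
    rw [← hβ] at hz'
    have h1 := hinj _ hz
    have h2 := hinj _ hz'
    subst h1; subst h2
    rw [broom_adj] at hzz
    have := hXY p
    omega
  have hsumA := degree_sum hφ (Sum.inl (α p))
  rw [degree_inl] at hsumA
  have hdz : (broom n).degree z ≤ 1 := by
    have hsub : (nb φ p (Sum.inl (α p))).card + (nb φ q (Sum.inl (α p))).card ≤
        ∑ r, (nb φ r (Sum.inl (α p))).card := by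
      rw [← Finset.sum_pair hqp.symm (f := fun r => (nb φ r (Sum.inl (α p))).card)]
      exact Finset.sum_le_sum_of_subset (Finset.subset_univ _)
    have e1 : (nb φ p (Sum.inl (α p))).card = n - 1 := by
      rw [← hα, card_nb, hdX]
    have e2 : (nb φ q (Sum.inl (α p))).card = (broom n).degree z := by
      rw [← hz, card_nb]
    omega
  -- `z` is on the side of `X q`
  have hzX : (z.val < n ↔ (X q).val < n) := by
    rw [hcons q z (X q), hz, hα]
    rfl
  have hzne : z ≠ X q := by
    rintro rfl
    rw [hdX] at hdz
    omega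
  have hz0 : z.val ≠ 0 := by
    intro h
    apply hzne
    apply Fin.ext
    have := hXY q
    omega
  have hzn : z.val ≠ n := by
    intro h
    apply hzne
    apply Fin.ext
    have := hXY q
    omega
  have hleaf := broom_leaf (by omega) z z' hz0 hzn hdz hzz
  have hz'Y : z' = Y q := by
    apply Fin.ext
    have := hXY q
    omega
  rw [hz'Y, hβ] at hz'
  exact hqp (hβinj q p (Sum.inr_injective hz'))

/-- trivial lower bound -/
theorem le_of_mem_SS {n k : ℕ} (hn : 1 ≤ n) (hk : k ∈ SS n) : n ≤ k := by
  classical
  obtain ⟨hk0, hk⟩ := hk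
  have hT := (path_balanced hn).1
  obtain ⟨φ, -⟩ := setting hn hT (hk _ (path_balanced hn))
  have hside : ∀ x y, (pathGraph (2 * n)).Adj x y → (x.val % 2 = 0 ↔ ¬ y.val % 2 = 0) := by
    intro x y hxy
    rw [pathGraph_adj] at hxy
    omega
  let p : Fin k := ⟨0, hk0⟩
  have hcons := fun x y => side_consistent hT.connected hside (φ p) x y
  have hinj : Function.Injective (φ p) := (φ p).injective
  let v0 : Fin (2 * n) := ⟨0, by omega⟩
  let R : Finset (Fin (2 * n)) := Finset.univ.filter (fun z => (φ p z).isLeft = false)
  have hR : R.card = n := by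
    by_cases h0 : (φ p v0).isLeft = false
    · have : R = Finset.univ.filter (fun x : Fin (2 * n) => x.val % 2 = 0) := by
        ext z
        simp only [R, Finset.mem_filter, Finset.mem_univ, true_and]
        have := hcons v0 z
        rw [h0] at this
        have hv : v0.val % 2 = 0 := Nat.zero_mod 2
        simp only [hv, true_iff] at this
        rw [this]
        exact eq_comm
      rw [this, card_even_side]
    · have : R = (Finset.univ.filter (fun x : Fin (2 * n) => x.val % 2 = 0))ᶜ := by
        ext z
        simp only [R, Finset.mem_filter, Finset.mem_univ, true_and, Finset.mem_compl]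
        have := hcons v0 z
        have hv : v0.val % 2 = 0 := Nat.zero_mod 2
        simp only [hv, true_iff] at this
        rw [this]
        rw [Bool.not_eq_false] at h0
        rw [h0]
        cases (φ p z).isLeft <;> simp
      rw [this, Finset.card_compl, card_even_side, Fintype.card_fin]
      omega
  have himg : R.image (φ p) ⊆ (Finset.univ : Finset (Fin k)).image Sum.inr := by
    intro u hu
    rw [Finset.mem_image] at hu
    obtain ⟨z, hz, rfl⟩ := hu
    simp only [R, Finset.mem_filter, Finset.mem_univ, true_and] at hz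
    rcases hz' : φ p z with c | c
    · rw [hz'] at hz; simp at hz
    · exact Finset.mem_image.mpr ⟨c, Finset.mem_univ _, rfl⟩
  have := Finset.card_le_card himg
  rw [Finset.card_image_of_injective _ Sum.inr_injective,
    Finset.card_image_of_injective _ hinj, hR, Finset.card_univ, Fintype.card_fin] at this
  exact this

/-- odd elements of `S(n)` are at least `2n-1` -/
theorem odd_mem_SS {n k : ℕ} (hn : 1 ≤ n) (hk : k ∈ SS n) (ho : Odd k) : 2 * n - 1 ≤ k :=
  path_odd hn ho (hk.2 _ (path_balanced hn))

/-- `n ∉ S(n)` for `n ≥ 3` -/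
theorem self_not_mem_SS {n : ℕ} (hn : 3 ≤ n) : n ∉ SS n := by
  intro h
  rcases Nat.lt_or_ge n 4 with h4 | h4
  · have : n = 3 := by omega
    subst this
    have := odd_mem_SS (by norm_num) h (by decide)
    omega
  · exact broom_not h4 (h.2 _ (broom_balanced (by omega)))

end Pool.Agent.MP7c15de
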